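import Mathlib
import Pool.Agent.Lib_MP_ba67f2_lc.RCore

/-!
# Online hitting set on set systems of VC-dimension at most 3

Every online hitting set algorithm, deterministic or randomized, has competitive ratio at least
`c log² n` on suitable set systems with `n` points and VC-dimension at most 3, for infinitely
many `n`.
-/

namespace Pool.Agent.Results.MP_ba67f2_lc.HittingSetLB

open Pool.Agent.Lib_MP_ba67f2_lc MeasureTheory

/-- A deterministic online hitting set algorithm for the set system `𝒮` on the points `Fin n`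
(the algorithm may even know `𝒮`): `pick l` is the set of points selected after the sets of `l`
have arrived, in the order of the list.  Selected points are never discarded, and every arrived
nonempty set of `𝒮` contains a selected point.  (The algorithm may select further points at any
time.) -/
structure OnlineHittingSet {n : ℕ} (𝒮 : Finset (Finset (Fin n))) where
  pick : List (Finset (Fin n)) → Finset (Fin n)
  irrevocable : ∀ l S, pick l ⊆ pick (l ++ [S])
  hits : ∀ l S, S ∈ 𝒮 → S.Nonempty → ∃ x ∈ pick (l ++ [S]), x ∈ S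

/-- The minimum size of a set of points that meets all sets of `l`. -/
noncomputable def opt {n : ℕ} (l : List (Finset (Fin n))) : ℕ :=
  sInf {k | ∃ H : Finset (Fin n), H.card = k ∧ ∀ S ∈ l, ∃ x ∈ H, x ∈ S}

/-- There are `c > 0` and, for infinitely many `n`, a set system `𝒮` of nonempty sets on `n`
points of VC-dimension at most 3 such that every randomized online hitting set algorithm `A`
for `𝒮` (a random deterministic algorithm, whose costs are random variables; a deterministic
algorithm is the case of a one point probability space) has an input `l` consisting of members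
of `𝒮` on which it selects in expectation at least `c log² n · opt` points, where `opt > 0` is
the minimum size of a hitting set of `l`. -/
theorem result : ∃ c : ℝ, 0 < c ∧ ∀ n₀ : ℕ, ∃ n : ℕ, n₀ ≤ n ∧ ∃ 𝒮 : Finset (Finset (Fin n)),
    𝒮.vcDim ≤ 3 ∧ (∀ S ∈ 𝒮, S.Nonempty) ∧
    ∀ (Ω : Type) [MeasurableSpace Ω] (μ : Measure Ω) [IsProbabilityMeasure μ]
      (A : Ω → OnlineHittingSet 𝒮), (∀ l, Measurable fun ω => (((A ω).pick l).card : ℝ)) →
      ∃ l : List (Finset (Fin n)), (∀ S ∈ l, S ∈ 𝒮) ∧ 0 < opt l ∧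
        c * (Real.log n) ^ 2 * (opt l : ℝ) ≤ ∫ ω, (((A ω).pick l).card : ℝ) ∂μ := by
  classical
  refine ⟨1 / 300000, by norm_num, ?_⟩
  intro n₀
  obtain ⟨g, hg, hg8, m, n, k, R, J, iJ, iJn, L, hgm, hgn, hm, hn, hk, hne, hpair, hLne, hLhit,
    hgame⟩ := rcore n₀
  refine ⟨n, by omega, Finset.univ.image R, vc_sets R hpair, ?_, ?_⟩
  · intro S hS
    rw [Finset.mem_image] at hS
    obtain ⟨j, _, rfl⟩ := hS
    exact hne j
  intro Ω _ μ _ A hA
  have hdet : ∀ ω, (Fintype.card J : ℝ) * ((g : ℝ) ^ 2 / 128 * k) ≤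
      ∑ I : J, (((A ω).pick ((L I).map R)).card : ℝ) := by
    intro ω
    apply hgame (fun l => (A ω).pick (l.map R))
    · intro l j
      rw [List.map_append]
      exact (A ω).irrevocable _ _
    · intro l j
      rw [List.map_append]
      exact (A ω).hits (l.map R) (R j) (Finset.mem_image_of_mem _ (Finset.mem_univ _)) (hne j)
  have hint : ∀ I : J, Integrable (fun ω => (((A ω).pick ((L I).map R)).card : ℝ)) μ := by
    intro I
    apply Integrable.of_bound (hA _).aestronglyMeasurable (n : ℝ)
    apply Filter.Eventually.of_forall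
    intro ω
    rw [Real.norm_of_nonneg (by positivity)]
    have := Finset.card_le_univ ((A ω).pick ((L I).map R))
    rw [Fintype.card_fin] at this
    exact_mod_cast this
  have hsum : (Fintype.card J : ℝ) * ((g : ℝ) ^ 2 / 128 * k) ≤
      ∑ I : J, ∫ ω, (((A ω).pick ((L I).map R)).card : ℝ) ∂μ := by
    rw [← integral_finsetSum _ (fun I _ => hint I)]
    calc (Fintype.card J : ℝ) * ((g : ℝ) ^ 2 / 128 * k)
        = ∫ _ω : Ω, (Fintype.card J : ℝ) * ((g : ℝ) ^ 2 / 128 * k) ∂μ := by simp
      _ ≤ _ := integral_mono (integrable_const _) (integrable_finsetSum _ (fun I _ => hint I)) hdet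
  have hI : ∃ I : J, (g : ℝ) ^ 2 / 128 * k ≤ ∫ ω, (((A ω).pick ((L I).map R)).card : ℝ) ∂μ := by
    by_contra hcon
    push Not at hcon
    have h1 := Finset.sum_lt_sum_of_nonempty (s := (Finset.univ : Finset J))
      Finset.univ_nonempty (fun I _ => hcon I)
    rw [Finset.sum_const, Finset.card_univ, nsmul_eq_mul] at h1
    linarith
  obtain ⟨I, hI⟩ := hI
  obtain ⟨H, hH, hhit⟩ := hLhit I
  have hmemset : ∃ H' : Finset (Fin n), H'.card = H.card ∧
      ∀ S ∈ (L I).map R, ∃ x ∈ H', x ∈ S := by
    refine ⟨H, rfl, ?_⟩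
    intro S hS
    rw [List.mem_map] at hS
    obtain ⟨j, hj, rfl⟩ := hS
    exact hhit j hj
  have hoptle : opt ((L I).map R) ≤ k := (Nat.sInf_le hmemset).trans hH
  have hoptpos : 0 < opt ((L I).map R) := by
    obtain ⟨H', hc, hcov⟩ := Nat.sInf_mem (s := {k | ∃ H' : Finset (Fin n), H'.card = k ∧
      ∀ S ∈ (L I).map R, ∃ x ∈ H', x ∈ S}) ⟨_, hmemset⟩
    rw [opt, ← hc, Finset.card_pos]
    obtain ⟨p, hp⟩ := List.exists_mem_of_ne_nil _ (hLne I)
    obtain ⟨x, hx, _⟩ := hcov (R p) (List.mem_map_of_mem hp)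
    exact ⟨x, hx⟩
  refine ⟨(L I).map R, ?_, hoptpos, le_trans ?_ hI⟩
  · intro S hS
    rw [List.mem_map] at hS
    obtain ⟨j, _, rfl⟩ := hS
    exact Finset.mem_image_of_mem _ (Finset.mem_univ _)
  have hlog : Real.log n ≤ 45 * g := by
    have h1 : (n : ℝ) ≤ (2 : ℝ) ^ (64 * g) := by exact_mod_cast hn
    have hmpos : (0 : ℝ) < n := by
      have : 0 < n := by omega
      exact_mod_cast this
    calc Real.log n ≤ Real.log ((2 : ℝ) ^ (64 * g)) := Real.log_le_log hmpos h1
      _ = (64 * g : ℕ) * Real.log 2 := by rw [Real.log_pow]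
      _ ≤ (64 * g : ℕ) * 0.7 := by
          have := Real.log_two_lt_d9
          gcongr
          linarith
      _ ≤ 45 * g := by
          push_cast
          have : (0 : ℝ) ≤ g := by positivity
          linarith
  have hlog0 : 0 ≤ Real.log n := Real.log_natCast_nonneg n
  have hlog2 : (Real.log n) ^ 2 ≤ (45 * g) ^ 2 := pow_le_pow_left₀ hlog0 hlog 2
  have hopt' : (opt ((L I).map R) : ℝ) ≤ k := by exact_mod_cast hoptle
  calc 1 / 300000 * (Real.log n) ^ 2 * (opt ((L I).map R) : ℝ)
      ≤ 1 / 300000 * (45 * (g : ℝ)) ^ 2 * (k : ℝ) := by gcongr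
    _ ≤ (g : ℝ) ^ 2 / 128 * k := by
        have : (0 : ℝ) ≤ (g : ℝ) ^ 2 * (k : ℝ) := by positivity
        nlinarith

end Pool.Agent.Results.MP_ba67f2_lc.HittingSetLB
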