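import Mathlib
import Pool.Agent.Lib_MP_ba67f2_lc.RCore

/-!
# Online set cover on set systems of VC-dimension at most 3

Every online set cover algorithm, deterministic or randomized, has competitive ratio at least
`c log² n` on suitable set systems with `n` points and VC-dimension at most 3, for infinitely
many `n`.
-/

namespace Pool.Agent.Results.MP_ba67f2_lc.SetCoverLB

open Pool.Agent.Lib_MP_ba67f2_lc MeasureTheory

/-- A deterministic online set cover algorithm for the (known) set system `𝒮` on the points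
`Fin n`: `sel l` is the family of sets selected after the points of `l` have arrived, in the
order of the list.  Selected sets belong to `𝒮`, are never discarded, and cover every arrived
point that belongs to some set of `𝒮`.  (The algorithm may select further sets at any time.) -/
structure OnlineSetCover {n : ℕ} (𝒮 : Finset (Finset (Fin n))) where
  sel : List (Fin n) → Finset (Finset (Fin n))
  sel_subset : ∀ l, sel l ⊆ 𝒮
  irrevocable : ∀ l p, sel l ⊆ sel (l ++ [p])
  covers : ∀ l p, (∃ S ∈ 𝒮, p ∈ S) → ∃ S ∈ sel (l ++ [p]), p ∈ S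

/-- The minimum number of sets of `𝒮` that cover all points of `l`. -/
noncomputable def opt {n : ℕ} (𝒮 : Finset (Finset (Fin n))) (l : List (Fin n)) : ℕ :=
  sInf {k | ∃ 𝒞 ⊆ 𝒮, 𝒞.card = k ∧ ∀ p ∈ l, ∃ S ∈ 𝒞, p ∈ S}

/-- There are `c > 0` and, for infinitely many `n`, a set system `𝒮` on `n` points of
VC-dimension at most 3, covering all its points, such that every randomized online set cover
algorithm `A` for `𝒮` (a random deterministic algorithm, whose costs are random variables; a
deterministic algorithm is the case of a one point probability space) has an input `l` on which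
it selects in expectation at least `c log² n · opt` sets, where `opt > 0` is the minimum size of
a cover of `l`. -/
theorem result : ∃ c : ℝ, 0 < c ∧ ∀ n₀ : ℕ, ∃ n : ℕ, n₀ ≤ n ∧ ∃ 𝒮 : Finset (Finset (Fin n)),
    𝒮.vcDim ≤ 3 ∧ (∀ p, ∃ S ∈ 𝒮, p ∈ S) ∧
    ∀ (Ω : Type) [MeasurableSpace Ω] (μ : Measure Ω) [IsProbabilityMeasure μ]
      (A : Ω → OnlineSetCover 𝒮), (∀ l, Measurable fun ω => (((A ω).sel l).card : ℝ)) →
      ∃ l : List (Fin n), 0 < opt 𝒮 l ∧
        c * (Real.log n) ^ 2 * (opt 𝒮 l : ℝ) ≤ ∫ ω, (((A ω).sel l).card : ℝ) ∂μ := by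
  classical
  refine ⟨1 / 300000, by norm_num, ?_⟩
  intro n₀
  obtain ⟨g, hg, hg8, m, n, k, R, J, iJ, iJn, L, hgm, hgn, hm, hn, hk, hne, hpair, hLne, hLhit,
    hgame⟩ := rcore n₀
  let T : Fin n → Finset (Fin m) := fun e => Finset.univ.filter (fun j => e ∈ R j)
  have hT : ∀ e j, j ∈ T e ↔ e ∈ R j := by intro e j; simp [T]
  have hcov : ∀ j : Fin m, ∃ S ∈ Finset.univ.image T, j ∈ S := by
    intro j
    obtain ⟨e, he⟩ := hne j
    exact ⟨T e, Finset.mem_image_of_mem _ (Finset.mem_univ _), (hT e j).mpr he⟩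
  refine ⟨m, by omega, Finset.univ.image T, vc_points R hpair, hcov, ?_⟩
  intro Ω _ μ _ A hA
  -- a representative of each set
  have hrep : ∃ r : Finset (Fin m) → Fin n, ∀ S ∈ Finset.univ.image T, T (r S) = S := by
    have hn0 : 0 < n := by omega
    have : ∀ S : Finset (Fin m), ∃ e : Fin n, S ∈ Finset.univ.image T → T e = S := by
      intro S
      by_cases h : S ∈ Finset.univ.image T
      · rw [Finset.mem_image] at h
        obtain ⟨e, _, he⟩ := h
        exact ⟨e, fun _ => he⟩
      · exact ⟨⟨0, hn0⟩, fun h' => absurd h' h⟩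
    choose r hr using this
    exact ⟨r, hr⟩
  obtain ⟨r, hr⟩ := hrep
  have hdet : ∀ ω, (Fintype.card J : ℝ) * ((g : ℝ) ^ 2 / 128 * k) ≤
      ∑ I : J, (((A ω).sel (L I)).card : ℝ) := by
    intro ω
    have h1 := hgame (fun l => ((A ω).sel l).image r) ?_ ?_
    · refine h1.trans (Finset.sum_le_sum ?_)
      intro I _
      exact_mod_cast Finset.card_image_le
    · intro l j
      exact Finset.image_subset_image ((A ω).irrevocable l j)
    · intro l j
      obtain ⟨S, hS, hjS⟩ := (A ω).covers l j (hcov j)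
      refine ⟨r S, Finset.mem_image_of_mem _ hS, ?_⟩
      rw [← hT, hr S ((A ω).sel_subset _ hS)]
      exact hjS
  have hint : ∀ I : J, Integrable (fun ω => (((A ω).sel (L I)).card : ℝ)) μ := by
    intro I
    apply Integrable.of_bound (hA (L I)).aestronglyMeasurable
      ((Finset.univ.image T).card : ℝ)
    apply Filter.Eventually.of_forall
    intro ω
    rw [Real.norm_of_nonneg (by positivity)]
    exact_mod_cast Finset.card_le_card ((A ω).sel_subset _)
  have hsum : (Fintype.card J : ℝ) * ((g : ℝ) ^ 2 / 128 * k) ≤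
      ∑ I : J, ∫ ω, (((A ω).sel (L I)).card : ℝ) ∂μ := by
    rw [← integral_finsetSum _ (fun I _ => hint I)]
    calc (Fintype.card J : ℝ) * ((g : ℝ) ^ 2 / 128 * k)
        = ∫ _ω : Ω, (Fintype.card J : ℝ) * ((g : ℝ) ^ 2 / 128 * k) ∂μ := by simp
      _ ≤ _ := integral_mono (integrable_const _) (integrable_finsetSum _ (fun I _ => hint I)) hdet
  have hI : ∃ I : J, (g : ℝ) ^ 2 / 128 * k ≤ ∫ ω, (((A ω).sel (L I)).card : ℝ) ∂μ := by
    by_contra hcon
    push Not at hcon
    have h1 := Finset.sum_lt_sum_of_nonempty (s := (Finset.univ : Finset J))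
      Finset.univ_nonempty (fun I _ => hcon I)
    rw [Finset.sum_const, Finset.card_univ, nsmul_eq_mul] at h1
    linarith
  obtain ⟨I, hI⟩ := hI
  obtain ⟨H, hH, hhit⟩ := hLhit I
  have hmemset : ∃ 𝒞 ⊆ Finset.univ.image T, 𝒞.card = (H.image T).card ∧
      ∀ p ∈ L I, ∃ S ∈ 𝒞, p ∈ S := by
    refine ⟨H.image T, Finset.image_subset_image (Finset.subset_univ _), rfl, ?_⟩
    intro p hp
    obtain ⟨x, hx, hxp⟩ := hhit p hp
    exact ⟨T x, Finset.mem_image_of_mem _ hx, (hT x p).mpr hxp⟩
  have hoptle : opt (Finset.univ.image T) (L I) ≤ k :=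
    (Nat.sInf_le hmemset).trans (Finset.card_image_le.trans hH)
  have hoptpos : 0 < opt (Finset.univ.image T) (L I) := by
    obtain ⟨𝒞, _, hc, hcov'⟩ := Nat.sInf_mem (s := {k | ∃ 𝒞 ⊆ Finset.univ.image T, 𝒞.card = k ∧
      ∀ p ∈ L I, ∃ S ∈ 𝒞, p ∈ S}) ⟨_, hmemset⟩
    rw [opt, ← hc, Finset.card_pos]
    obtain ⟨p, hp⟩ := List.exists_mem_of_ne_nil _ (hLne I)
    obtain ⟨S, hS, _⟩ := hcov' p hp
    exact ⟨S, hS⟩
  refine ⟨L I, hoptpos, le_trans ?_ hI⟩
  have hlog : Real.log m ≤ 45 * g := by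
    have h1 : (m : ℝ) ≤ (2 : ℝ) ^ (64 * g) := by exact_mod_cast hm
    have hmpos : (0 : ℝ) < m := by
      have : 0 < m := by omega
      exact_mod_cast this
    calc Real.log m ≤ Real.log ((2 : ℝ) ^ (64 * g)) := Real.log_le_log hmpos h1
      _ = (64 * g : ℕ) * Real.log 2 := by rw [Real.log_pow]
      _ ≤ (64 * g : ℕ) * 0.7 := by
          have := Real.log_two_lt_d9
          gcongr
          linarith
      _ ≤ 45 * g := by
          push_cast
          have : (0 : ℝ) ≤ g := by positivity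
          linarith
  have hlog0 : 0 ≤ Real.log m := Real.log_natCast_nonneg m
  have hlog2 : (Real.log m) ^ 2 ≤ (45 * g) ^ 2 := pow_le_pow_left₀ hlog0 hlog 2
  have hopt' : (opt (Finset.univ.image T) (L I) : ℝ) ≤ k := by exact_mod_cast hoptle
  calc 1 / 300000 * (Real.log m) ^ 2 * (opt (Finset.univ.image T) (L I) : ℝ)
      ≤ 1 / 300000 * (45 * (g : ℝ)) ^ 2 * (k : ℝ) := by gcongr
    _ ≤ (g : ℝ) ^ 2 / 128 * k := by
        have : (0 : ℝ) ≤ (g : ℝ) ^ 2 * (k : ℝ) := by positivity
        nlinarith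

end Pool.Agent.Results.MP_ba67f2_lc.SetCoverLB
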